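import Pool.Agent.H83P.Stm
import Pool.Agent.H83M.ONE

/-!
# ZP, piece P1 (helper83)
-/

set_option autoImplicit false

namespace Pool.Agent.H83P

open Complex MeasureTheory Set Filter Pool.Agent.H83M

theorem t_P1x (h : S_PW) : S_P1 := by
  intro x lam hx hlam hE ε hε
  obtain ⟨C, hC3, hC⟩ := h
  obtain ⟨T₀, hT₀⟩ := hE (x * ε) (by positivity)
  obtain ⟨a, ha⟩ : ∃ a : ℝ, a = lam + x * ε := ⟨_, rfl⟩
  have ha0 : 0 ≤ a := by rw [ha]; positivity
  rw [← ha] at hT₀
  obtain ⟨A, hA⟩ : ∃ A : ℝ, A = 2 * (Real.log C + 2 + a) / ε := ⟨_, rfl⟩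
  have hlC : 0 ≤ Real.log C := Real.log_nonneg (by linarith)
  have hA0 : 0 < A := by rw [hA]; positivity
  have ev : ∀ᶠ t : ℝ in atTop, Z t ≤ Real.exp ((lam / (2 * x) + ε) * sc t) := by
    filter_upwards [eventually_ge_atTop (Real.exp (Real.exp 1)), eventually_ge_atTop T₀,
      eventually_ge_atTop C, CRI.ev1 (A ^ 2), CRI.ev1 ((1 / (2 * x)) ^ 2)]
      with t h1 h2 h3 h4 h5
    obtain ⟨ht0, hL, hLL⟩ := CRI.big h1
    obtain ⟨l, hl⟩ : ∃ l : ℝ, l = Real.log (Real.log t) := ⟨_, rfl⟩
    obtain ⟨L, hLd⟩ : ∃ L : ℝ, L = Real.log t := ⟨_, rfl⟩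
    have hmono := ONE.LL_mono ht0 (by linarith) hLL
    rw [← hl] at hLL h4 h5
    rw [← hLd] at hL h4 h5
    have hl0 : 0 < l := by linarith
    have hL0 : 0 < L := by linarith
    obtain ⟨s, hs⟩ : ∃ s : ℝ, s = sc t := ⟨_, rfl⟩
    have hs2 : s ^ 2 = L * l := by
      rw [hs]
      unfold sc
      rw [← hl, ← hLd]
      exact Real.sq_sqrt (by positivity)
    have hs0 : 0 ≤ s := by
      rw [hs]
      exact Real.sqrt_nonneg _
    obtain ⟨q, hq⟩ : ∃ q : ℝ, q = Real.sqrt (LL t) := ⟨_, rfl⟩
    obtain ⟨q', hq'⟩ : ∃ q' : ℝ, q' = Real.sqrt (LL (2 * t)) := ⟨_, rfl⟩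
    have hLLt : LL t = L / l := by
      unfold LL
      rw [← hl, ← hLd]
    have hq2 : q ^ 2 = L / l := by
      rw [hq, hLLt]
      exact Real.sq_sqrt (by positivity)
    have hq0 : 0 < q := by
      rw [hq, hLLt]
      exact Real.sqrt_pos.2 (by positivity)
    have hqq : q ≤ q' := by
      rw [hq, hq']
      exact Real.sqrt_le_sqrt hmono
    have hsq : s * q = L := by
      have e1 : (s * q) ^ 2 = L ^ 2 := by
        rw [mul_pow, hs2, hq2]
        field_simp
      exact (sq_eq_sq₀ (by positivity) hL0.le).1 e1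
    -- the order
    obtain ⟨p, hp⟩ : ∃ p : ℝ, p = 2 * (x * q') := ⟨_, rfl⟩
    have hpq : 2 * x * q ≤ p := by
      rw [hp]
      nlinarith
    have hq1 : 1 / (2 * x) ≤ q := by
      apply le_of_sq_le_sq _ hq0.le
      rw [hq2, le_div_iff₀ hl0]
      exact h5
    have hp1 : 1 ≤ p := by
      have e1 : 2 * x * (1 / (2 * x)) = 1 := by field_simp
      have e2 : 2 * x * (1 / (2 * x)) ≤ 2 * x * q := mul_le_mul_of_nonneg_left hq1 (by positivity)
      linarith
    have hp0 : 0 < p := by linarith
    have key := hC t t p h3 ht0.le le_rfl hp1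
    have hM := hT₀ (2 * t) (by linarith)
    rw [← hq'] at hM
    unfold M at hM
    rw [← hp] at hM
    have hone : (1:ℝ) ≤ (2 * t) ^ a := by
      apply Real.one_le_rpow _ ha0
      have : 3 ≤ t := by linarith
      linarith
    have hCp : 0 < C ^ p := Real.rpow_pos_of_pos (by linarith) p
    have hkey : Z t ^ p ≤ Real.exp (Real.log C * p + l + Real.log 2 + a * (Real.log 2 + L)) := by
      calc Z t ^ p ≤ C ^ p * Real.log t * (1 + ∫ y in (0:ℝ)..(2 * t), Z y ^ p) := key
        _ ≤ C ^ p * Real.log t * (2 * (2 * t) ^ a) := by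
            apply mul_le_mul_of_nonneg_left _ (by rw [← hLd]; positivity)
            linarith
        _ = _ := by
            rw [Real.rpow_def_of_pos (by linarith : (0:ℝ) < C),
              Real.rpow_def_of_pos (by positivity : (0:ℝ) < 2 * t),
              Real.log_mul (by norm_num) ht0.ne', ← hLd]
            have e1 : L = Real.exp l := by
              rw [hl, ← hLd, Real.exp_log hL0]
            have e2 : (2:ℝ) = Real.exp (Real.log 2) := (Real.exp_log (by norm_num)).symm
            conv_lhs => rw [e1]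
            rw [show Real.exp (Real.log C * p) * Real.exp l *
                (2 * Real.exp ((Real.log 2 + Real.exp l) * a)) =
                Real.exp (Real.log C * p) * Real.exp l * Real.exp (Real.log 2) *
                  Real.exp ((Real.log 2 + Real.exp l) * a) by
                rw [Real.exp_log (by norm_num : (0:ℝ) < 2)]; ring,
              ← Real.exp_add, ← Real.exp_add, ← Real.exp_add, ← e1]
            congr 1
            ring
    have hroot : Z t ≤ Real.exp ((Real.log C * p + l + Real.log 2 + a * (Real.log 2 + L)) / p) := by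
      have e1 := Real.rpow_le_rpow (Real.rpow_nonneg (CRI.Z_nonneg t) p) hkey
        (by positivity : (0:ℝ) ≤ 1 / p)
      rw [← Real.rpow_mul (CRI.Z_nonneg t), mul_one_div_cancel hp0.ne', Real.rpow_one,
        ← Real.exp_mul] at e1
      refine e1.trans (le_of_eq ?_)
      congr 1
      ring
    refine hroot.trans (Real.exp_le_exp.2 ?_)
    rw [← hs]
    have hlog2 : Real.log 2 ≤ 1 := by
      have := Real.log_le_sub_one_of_pos (show (0:ℝ) < 2 by norm_num)
      linarith
    have hlog20 : 0 ≤ Real.log 2 := Real.log_nonneg (by norm_num)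
    -- the main term
    have m1 : a * L / p ≤ (lam / (2 * x) + ε / 2) * s := by
      rw [div_le_iff₀ hp0]
      have e1 : (lam / (2 * x) + ε / 2) = a / (2 * x) := by
        rw [ha]
        field_simp
      rw [e1]
      calc a * L = a / (2 * x) * s * (2 * x * q) := by
            rw [← hsq]
            field_simp
        _ ≤ a / (2 * x) * s * p := mul_le_mul_of_nonneg_left hpq (by positivity)
    -- the other terms
    have m2 : (l + Real.log 2 + a * Real.log 2) / p ≤ l + 1 + a := by
      rw [div_le_iff₀ hp0]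
      have e1 : l + Real.log 2 + a * Real.log 2 ≤ l + 1 + a := by nlinarith
      nlinarith
    have m3 : A * l ≤ s := by
      apply le_of_sq_le_sq _ hs0
      rw [mul_pow, hs2]
      nlinarith
    have m4 : Real.log C + (l + 1 + a) ≤ ε / 2 * s := by
      have e1 : ε / 2 * (A * l) = (Real.log C + 2 + a) * l := by
        rw [hA]
        field_simp
      have e2 : ε / 2 * (A * l) ≤ ε / 2 * s := mul_le_mul_of_nonneg_left m3 (by positivity)
      nlinarith
    have m5 : (Real.log C * p + l + Real.log 2 + a * (Real.log 2 + L)) / p =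
        Real.log C + (l + Real.log 2 + a * Real.log 2) / p + a * L / p := by
      field_simp
      ring
    rw [m5]
    have m6 : (lam / (2 * x) + ε) * s = (lam / (2 * x) + ε / 2) * s + ε / 2 * s := by ring
    rw [m6]
    linarith
  obtain ⟨t₀, ht₀⟩ := eventually_atTop.1 ev
  exact ⟨t₀, fun t ht => ht₀ t ht⟩

end Pool.Agent.H83P
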