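import Pool.Agent.H83P.Stm

/-!
# ZP, piece P2 (helper28)
-/

set_option autoImplicit false

namespace Pool.Agent.H83P

open Complex MeasureTheory Set Filter Pool.Agent.H83M

theorem P2.sqrt_mul_sc {T : ℝ} (hl : 1 ≤ Real.log T) (hll : 1 ≤ Real.log (Real.log T)) :
    Real.sqrt (LL T) * sc T = Real.log T := by
  have h0 : 0 < Real.log T := by linarith
  have h1 : 0 < Real.log (Real.log T) := by linarith
  unfold LL sc
  rw [← Real.sqrt_mul (div_pos h0 h1).le]
  have e : Real.log T / Real.log (Real.log T) * (Real.log T * Real.log (Real.log T)) = Real.log T ^ 2 := by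
    field_simp
  rw [e, Real.sqrt_sq h0.le]

theorem t_P2 (h : S_UB) : S_P2 := by
  intro x m hx hm hB ε hε
  obtain ⟨δ, hδ⟩ : ∃ δ : ℝ, δ = ε / (2 * x) := ⟨_, rfl⟩
  have hδ0 : 0 < δ := by rw [hδ]; positivity
  obtain ⟨T₁, hT₁⟩ := h m hm hB δ hδ0
  refine ⟨max T₁ (Real.exp (Real.exp 1)), fun T hT => ?_⟩
  have h1 : T₁ ≤ T := (le_max_left _ _).trans hT
  have h2 : Real.exp (Real.exp 1) ≤ T := (le_max_right _ _).trans hT
  obtain ⟨hT0, hl, hll⟩ := CRI.big h2
  have hk : 0 ≤ x * Real.sqrt (LL T) := mul_nonneg hx.le (Real.sqrt_nonneg _)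
  have h3 := REF.M_le' (T := T) (k := x * Real.sqrt (LL T)) (B := Real.exp ((m + δ) * sc T)) hT0.le hk
    (fun t ht0 htT => hT₁ T t h1 ht0 htT)
  refine h3.trans (le_of_eq ?_)
  have h4 := P2.sqrt_mul_sc hl hll
  have h5 : (m + δ) * sc T * (2 * (x * Real.sqrt (LL T))) = 2 * x * (m + δ) * Real.log T := by
    rw [← h4]
    ring
  have h6 : 2 * x * (m + δ) * Real.log T + Real.log T = Real.log T * (1 + 2 * m * x + ε) := by
    have : 2 * x * δ = ε := by
      rw [hδ]
      field_simp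
    linear_combination Real.log T * this
  rw [← Real.exp_mul, h5, Real.rpow_def_of_pos hT0, ← h6, Real.exp_add, Real.exp_log hT0]

end Pool.Agent.H83P
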