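import Pool.Agent.H83P.Stm

/-!
# Project ZP, piece P3 (helper10)
-/

set_option autoImplicit false

namespace Pool.Agent.H83P

open Complex MeasureTheory Set Filter Pool.Agent.H83M

namespace P3

theorem sqrt_mul_sc {T : ℝ} (hT : Real.exp (Real.exp 1) ≤ T) : Real.sqrt (LL T) * sc T = Real.log T := by
  obtain ⟨-, h1, h2⟩ := Pool.Agent.H83M.CRI.big hT
  have hL : 0 ≤ Real.log T := by linarith
  have hl : 0 < Real.log (Real.log T) := by linarith
  unfold LL sc
  rw [← Real.sqrt_mul (div_nonneg hL hl.le)]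
  have e : Real.log T / Real.log (Real.log T) * (Real.log T * Real.log (Real.log T)) = Real.log T ^ 2 := by
    field_simp
  rw [e, Real.sqrt_sq hL]

end P3

theorem t_P3 (h1 : S_P1) (h2 : S_UB) : S_P3 := by
  intro x y lam hx hxy hlam hE ε hε
  have hm : 0 ≤ lam / (2 * x) := by positivity
  have hd : 0 < 2 * (y - x) + 1 := by linarith
  set δ := ε / (2 * (y - x) + 1) with hδdef
  have hδ : 0 < δ := by positivity
  obtain ⟨T₁, hT₁⟩ := h2 _ hm (h1 x lam hx hlam hE) δ hδ
  obtain ⟨T₂, hT₂⟩ := hE δ hδ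
  refine ⟨max (max T₁ T₂) (Real.exp (Real.exp 1)), fun T hT => ?_⟩
  have hTa : T₁ ≤ T := (le_max_left _ _).trans ((le_max_left _ _).trans hT)
  have hTb : T₂ ≤ T := (le_max_right _ _).trans ((le_max_left _ _).trans hT)
  have hTc : Real.exp (Real.exp 1) ≤ T := (le_max_right _ _).trans hT
  obtain ⟨hT0, -, -⟩ := Pool.Agent.H83M.CRI.big hTc
  have hs := Real.sqrt_nonneg (LL T)
  have h3 := Pool.Agent.H83M.REF.M_le (T := T) (j := x * Real.sqrt (LL T)) (k := y * Real.sqrt (LL T))
    (B := Real.exp ((lam / (2 * x) + δ) * sc T)) hT0.le (by positivity) (mul_le_mul_of_nonneg_right hxy hs)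
    (fun t ht0 htT => hT₁ T t hTa ht0 htT)
  have h4 := hT₂ T hTb
  refine h3.trans ?_
  have e1 : Real.exp ((lam / (2 * x) + δ) * sc T) ^ (2 * (y * Real.sqrt (LL T) - x * Real.sqrt (LL T))) =
      T ^ ((lam / (2 * x) + δ) * (2 * (y - x))) := by
    rw [← Real.exp_mul, Real.rpow_def_of_pos hT0, ← P3.sqrt_mul_sc hTc]
    congr 1
    ring
  rw [e1]
  calc T ^ ((lam / (2 * x) + δ) * (2 * (y - x))) * M (x * Real.sqrt (LL T)) T
      ≤ T ^ ((lam / (2 * x) + δ) * (2 * (y - x))) * T ^ (lam + δ) :=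
        mul_le_mul_of_nonneg_left h4 (Real.rpow_nonneg hT0.le _)
    _ = T ^ (lam * y / x + ε) := by
        rw [← Real.rpow_add hT0]
        congr 1
        have e2 : δ * (2 * (y - x) + 1) = ε := by
          rw [hδdef]
          field_simp
        rw [← e2]
        field_simp
        ring

end Pool.Agent.H83P
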