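import Pool.Agent.H83P.Stm

/-!
# Project ZP, piece P4 (helper55): convexity of the profile
-/

set_option autoImplicit false

namespace Pool.Agent.H83P

open Complex MeasureTheory Set Filter Pool.Agent.H83M

/-- Young's inequality with bounds -/
theorem P4.young {p q A B θ : ℝ} (hp : 0 ≤ p) (hq : 0 ≤ q) (hA : 0 < A) (hB : 0 < B)
    (h0 : 0 < θ) (h1 : θ < 1) :
    p ^ θ * q ^ (1 - θ) ≤ A ^ θ * B ^ (1 - θ) * (θ / A * p + (1 - θ) / B * q) := by
  have h2 := Real.geom_mean_le_arith_mean2_weighted (w₁ := θ) (w₂ := 1 - θ) (p₁ := p / A)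
    (p₂ := q / B) h0.le (by linarith) (div_nonneg hp hA.le) (div_nonneg hq hB.le) (by ring)
  have hA' : 0 < A ^ θ := Real.rpow_pos_of_pos hA _
  have hB' : 0 < B ^ (1 - θ) := Real.rpow_pos_of_pos hB _
  rw [Real.div_rpow hp hA.le, Real.div_rpow hq hB.le] at h2
  have h3 : p ^ θ * q ^ (1 - θ) = A ^ θ * B ^ (1 - θ) * (p ^ θ / A ^ θ *
      (q ^ (1 - θ) / B ^ (1 - θ))) := by
    field_simp
  have h4 : θ / A * p + (1 - θ) / B * q = θ * (p / A) + (1 - θ) * (q / B) := by ring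
  rw [h3, h4]
  exact mul_le_mul_of_nonneg_left h2 (mul_pos hA' hB').le

theorem P4.conv {a b A B θ T : ℝ} (hT : 0 ≤ T) (ha : 0 ≤ a) (hb : 0 ≤ b) (hA : 0 < A)
    (hB : 0 < B) (h0 : 0 < θ) (h1 : θ < 1) (hMa : M a T ≤ A) (hMb : M b T ≤ B) :
    M (θ * a + (1 - θ) * b) T ≤ A ^ θ * B ^ (1 - θ) := by
  have hc : 0 ≤ A ^ θ * B ^ (1 - θ) :=
    (mul_pos (Real.rpow_pos_of_pos hA _) (Real.rpow_pos_of_pos hB _)).le
  have h2 : M (θ * a + (1 - θ) * b) T ≤
      ∫ t in (0:ℝ)..T, A ^ θ * B ^ (1 - θ) *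
        (θ / A * Z t ^ (2 * a) + (1 - θ) / B * Z t ^ (2 * b)) := by
    unfold M
    refine intervalIntegral.integral_mono_on hT (REF.Zp_int (by positivity) T)
      ((((REF.Zp_int ha T).const_mul _).add ((REF.Zp_int hb T).const_mul _)).const_mul _)
      fun t _ => ?_
    have hZ := CRI.Z_nonneg t
    have e : Z t ^ (2 * (θ * a + (1 - θ) * b)) =
        (Z t ^ (2 * a)) ^ θ * (Z t ^ (2 * b)) ^ (1 - θ) := by
      rw [← Real.rpow_mul hZ, ← Real.rpow_mul hZ, ← Real.rpow_add_of_nonneg hZ (by positivity)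
        (mul_nonneg (by positivity) (by linarith))]
      congr 1
      ring
    rw [e]
    exact P4.young (Real.rpow_nonneg hZ _) (Real.rpow_nonneg hZ _) hA hB h0 h1
  refine h2.trans ?_
  rw [intervalIntegral.integral_const_mul, intervalIntegral.integral_add
    ((REF.Zp_int ha T).const_mul _) ((REF.Zp_int hb T).const_mul _),
    intervalIntegral.integral_const_mul, intervalIntegral.integral_const_mul]
  have h3 : θ / A * M a T ≤ θ := by
    calc θ / A * M a T ≤ θ / A * A := mul_le_mul_of_nonneg_left hMa (by positivity)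
      _ = θ := by field_simp
  have h4 : (1 - θ) / B * M b T ≤ 1 - θ := by
    calc (1 - θ) / B * M b T ≤ (1 - θ) / B * B :=
          mul_le_mul_of_nonneg_left hMb (div_nonneg (by linarith) hB.le)
      _ = 1 - θ := by field_simp
  have h5 : θ / A * M a T + (1 - θ) / B * M b T ≤ 1 := by linarith
  calc A ^ θ * B ^ (1 - θ) * (θ / A * M a T + (1 - θ) / B * M b T)
      ≤ A ^ θ * B ^ (1 - θ) * 1 := mul_le_mul_of_nonneg_left h5 hc
    _ = A ^ θ * B ^ (1 - θ) := mul_one _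

theorem t_P4 : S_P4 := by
  intro x y lam mu θ hx hy h0 h1 hEx hEy ε hε
  obtain ⟨T₁, hT₁⟩ := hEx ε hε
  obtain ⟨T₂, hT₂⟩ := hEy ε hε
  refine ⟨max (max T₁ T₂) 1, fun T hT => ?_⟩
  have hTa : T₁ ≤ T := (le_max_left _ _).trans ((le_max_left _ _).trans hT)
  have hTb : T₂ ≤ T := (le_max_right _ _).trans ((le_max_left _ _).trans hT)
  have hT1 : 1 ≤ T := (le_max_right _ _).trans hT
  have hT0 : 0 < T := by linarith
  have h2 := P4.conv (a := x * Real.sqrt (LL T)) (b := y * Real.sqrt (LL T)) hT0.le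
    (by positivity) (by positivity) (Real.rpow_pos_of_pos hT0 (lam + ε))
    (Real.rpow_pos_of_pos hT0 (mu + ε)) h0 h1 (hT₁ T hTa) (hT₂ T hTb)
  have e1 : θ * (x * Real.sqrt (LL T)) + (1 - θ) * (y * Real.sqrt (LL T)) =
      (θ * x + (1 - θ) * y) * Real.sqrt (LL T) := by ring
  have e2 : (T ^ (lam + ε)) ^ θ * (T ^ (mu + ε)) ^ (1 - θ) =
      T ^ (θ * lam + (1 - θ) * mu + ε) := by
    rw [← Real.rpow_mul hT0.le, ← Real.rpow_mul hT0.le, ← Real.rpow_add hT0]
    congr 1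
    ring
  rw [e1, e2] at h2
  exact h2

end Pool.Agent.H83P
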