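import Pool.Agent.H83P.Stm

/-!
# ZP, piece P4 (convexity by Hölder), double by helper94
-/

set_option autoImplicit false

namespace Pool.Agent.H83P

open Complex MeasureTheory Set Filter Pool.Agent.H83M

namespace P4b

lemma holder {T a b θ A B : ℝ} (hT : 0 ≤ T) (ha : 0 ≤ a) (hb : 0 ≤ b) (h0 : 0 < θ) (h1 : θ < 1)
    (hA : 0 < A) (hB : 0 < B) (h2 : M a T ≤ A) (h3 : M b T ≤ B) :
    M (θ * a + (1 - θ) * b) T ≤ A ^ θ * B ^ (1 - θ) := by
  have h1' : 0 < 1 - θ := by linarith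
  have hAB : 0 < A ^ θ * B ^ (1 - θ) := mul_pos (Real.rpow_pos_of_pos hA _) (Real.rpow_pos_of_pos hB _)
  have pt : ∀ t : ℝ, Z t ^ (2 * (θ * a + (1 - θ) * b)) ≤
      A ^ θ * B ^ (1 - θ) * (θ / A * Z t ^ (2 * a) + (1 - θ) / B * Z t ^ (2 * b)) := by
    intro t
    have hZ := CRI.Z_nonneg t
    have hu : 0 ≤ Z t ^ (2 * a) := Real.rpow_nonneg hZ _
    have hv : 0 ≤ Z t ^ (2 * b) := Real.rpow_nonneg hZ _
    have hy := Real.geom_mean_le_arith_mean2_weighted h0.le h1'.le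
      (div_nonneg hu hA.le) (div_nonneg hv hB.le) (by ring : θ + (1 - θ) = 1)
    rw [Real.div_rpow hu hA.le, Real.div_rpow hv hB.le, ← Real.rpow_mul hZ, ← Real.rpow_mul hZ] at hy
    have e : 2 * (θ * a + (1 - θ) * b) = 2 * a * θ + 2 * b * (1 - θ) := by ring
    rw [e, Real.rpow_add_of_nonneg hZ (by positivity) (by positivity)]
    have hA' : (0:ℝ) < A ^ θ := Real.rpow_pos_of_pos hA _
    have hB' : (0:ℝ) < B ^ (1 - θ) := Real.rpow_pos_of_pos hB _
    calc Z t ^ (2 * a * θ) * Z t ^ (2 * b * (1 - θ))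
        = A ^ θ * B ^ (1 - θ) * (Z t ^ (2 * a * θ) / A ^ θ * (Z t ^ (2 * b * (1 - θ)) / B ^ (1 - θ))) := by
          field_simp
      _ ≤ A ^ θ * B ^ (1 - θ) * (θ * (Z t ^ (2 * a) / A) + (1 - θ) * (Z t ^ (2 * b) / B)) :=
          mul_le_mul_of_nonneg_left hy hAB.le
      _ = _ := by ring
  have hk : 0 ≤ θ * a + (1 - θ) * b := by positivity
  have hM : M (θ * a + (1 - θ) * b) T ≤
      A ^ θ * B ^ (1 - θ) * (θ / A * M a T + (1 - θ) / B * M b T) := by
    unfold M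
    rw [← intervalIntegral.integral_const_mul, ← intervalIntegral.integral_const_mul,
      ← intervalIntegral.integral_add ((REF.Zp_int ha T).const_mul _) ((REF.Zp_int hb T).const_mul _),
      ← intervalIntegral.integral_const_mul]
    exact intervalIntegral.integral_mono_on hT (REF.Zp_int hk T)
      ((((REF.Zp_int ha T).const_mul _).add ((REF.Zp_int hb T).const_mul _)).const_mul _)
      fun t _ => pt t
  refine hM.trans ?_
  have h4 : θ / A * M a T ≤ θ := by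
    calc θ / A * M a T ≤ θ / A * A := mul_le_mul_of_nonneg_left h2 (by positivity)
      _ = θ := by field_simp
  have h5 : (1 - θ) / B * M b T ≤ 1 - θ := by
    calc (1 - θ) / B * M b T ≤ (1 - θ) / B * B := mul_le_mul_of_nonneg_left h3 (by positivity)
      _ = 1 - θ := by field_simp
  calc A ^ θ * B ^ (1 - θ) * (θ / A * M a T + (1 - θ) / B * M b T) ≤ A ^ θ * B ^ (1 - θ) * 1 :=
        mul_le_mul_of_nonneg_left (by linarith) hAB.le
    _ = _ := mul_one _

end P4b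

open P4b in
theorem t_P4 : S_P4 := by
  intro x y lam mu θ hx hy h0 h1 hX hY ε hε
  obtain ⟨T₁, hT₁⟩ := hX ε hε
  obtain ⟨T₂, hT₂⟩ := hY ε hε
  refine ⟨max (max T₁ T₂) 1, fun T hT => ?_⟩
  have hTa : T₁ ≤ T := (le_max_left _ _).trans ((le_max_left _ _).trans hT)
  have hTb : T₂ ≤ T := (le_max_right _ _).trans ((le_max_left _ _).trans hT)
  have hT0 : 0 < T := lt_of_lt_of_le one_pos ((le_max_right _ _).trans hT)
  have hr : 0 ≤ Real.sqrt (LL T) := Real.sqrt_nonneg _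
  have h := holder (T := T) (a := x * Real.sqrt (LL T)) (b := y * Real.sqrt (LL T)) (θ := θ)
    (A := T ^ (lam + ε)) (B := T ^ (mu + ε)) hT0.le (by positivity) (by positivity) h0 h1
    (Real.rpow_pos_of_pos hT0 _) (Real.rpow_pos_of_pos hT0 _) (hT₁ T hTa) (hT₂ T hTb)
  have e1 : θ * (x * Real.sqrt (LL T)) + (1 - θ) * (y * Real.sqrt (LL T)) =
      (θ * x + (1 - θ) * y) * Real.sqrt (LL T) := by ring
  have e2 : (T ^ (lam + ε)) ^ θ * (T ^ (mu + ε)) ^ (1 - θ) =
      T ^ (θ * lam + (1 - θ) * mu + ε) := by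
    rw [← Real.rpow_mul hT0.le, ← Real.rpow_mul hT0.le, ← Real.rpow_add hT0]
    congr 1
    ring
  rw [e1, e2] at h
  exact h

end Pool.Agent.H83P
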