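import Pool.Agent.H83P.Stm

/-!
# Project ZP, piece P5A (helper34): the upper range
-/

set_option autoImplicit false

namespace Pool.Agent.H83P

open Complex MeasureTheory Set Filter Pool.Agent.H83M

theorem t_P5A (h : S_UB) : S_P5A := by
  intro hBd hEx ε hε
  obtain ⟨δ, hδ0, hδ⟩ : ∃ δ : ℝ, 0 < δ ∧ δ + δ ^ 2 ≤ ε := by
    refine ⟨min 1 (ε / 2), lt_min one_pos (by positivity), ?_⟩
    have h1 : min 1 (ε / 2) ≤ 1 := min_le_left _ _
    have h2 : min 1 (ε / 2) ≤ ε / 2 := min_le_right _ _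
    have h0 : 0 < min 1 (ε / 2) := lt_min one_pos (by positivity)
    nlinarith
  obtain ⟨T₁, hT₁⟩ := h 1 zero_le_one hBd δ hδ0
  obtain ⟨T₂, hT₂⟩ := hEx δ hδ0
  refine ⟨max (max T₁ T₂) (Real.exp (Real.exp 1)), fun T k hT hk => ?_⟩
  have hTa : T₁ ≤ T := (le_max_left _ _).trans ((le_max_left _ _).trans hT)
  have hTb : T₂ ≤ T := (le_max_right _ _).trans ((le_max_left _ _).trans hT)
  obtain ⟨hT0, hL1, hl1⟩ := CRI.big ((le_max_right _ _).trans hT)
  obtain ⟨L, hL⟩ : ∃ L, L = Real.log T := ⟨_, rfl⟩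
  obtain ⟨l, hl⟩ : ∃ l, l = Real.log L := ⟨_, rfl⟩
  rw [← hL] at hL1 hl1
  rw [← hl] at hl1
  have hL0 : 0 < L := by linarith
  have hl0 : 0 < l := by linarith
  obtain ⟨s, hs⟩ : ∃ s, s = sc T := ⟨_, rfl⟩
  obtain ⟨j, hj⟩ : ∃ j, j = Real.sqrt (LL T) := ⟨_, rfl⟩
  have hs2 : s ^ 2 = L * l := by
    rw [hs]
    unfold sc
    rw [← hL, ← hl]
    exact Real.sq_sqrt (by positivity)
  have hs0 : 0 ≤ s := by
    rw [hs]
    exact Real.sqrt_nonneg _
  have hj0 : 0 ≤ j := by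
    rw [hj]
    exact Real.sqrt_nonneg _
  have hj2 : j ^ 2 = L / l := by
    rw [hj]
    unfold LL
    rw [← hL, ← hl]
    exact Real.sq_sqrt (by positivity)
  have hjs : s * j = L := by
    have e : (s * j) ^ 2 = L ^ 2 := by
      rw [mul_pow, hs2, hj2]
      field_simp
    exact (sq_eq_sq₀ (by positivity) hL0.le).1 e
  rw [← hj] at hk
  have hUB : ∀ t, 0 ≤ t → t ≤ T → Z t ≤ Real.exp ((1 + δ) * s) := fun t h0 h1 => by
    rw [hs]
    exact hT₁ T t hTa h0 h1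
  have hM := REF.M_le hT0.le hj0 hk hUB
  have hE := hT₂ T hTb
  rw [one_mul, ← hj] at hE
  calc M k T ≤ Real.exp ((1 + δ) * s) ^ (2 * (k - j)) * M j T := hM
    _ ≤ Real.exp ((1 + δ) * s) ^ (2 * (k - j)) * T ^ (2 + δ) := mul_le_mul_of_nonneg_left hE (by positivity)
    _ = Real.exp ((1 + δ) * s * (2 * (k - j)) + L * (2 + δ)) := by
        rw [← Real.exp_mul, Real.rpow_def_of_pos hT0, ← Real.exp_add, ← hL]
    _ ≤ Real.exp (L * (1 + ε) + l * k ^ 2) := by
        apply Real.exp_le_exp.2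
        obtain ⟨P, hP⟩ : ∃ P, P = s * k := ⟨_, rfl⟩
        have hPQ : L * (l * k ^ 2) = P ^ 2 := by
          rw [hP, mul_pow, hs2]
          ring
        have e1 : (1 + δ) * s * (2 * (k - j)) = 2 * (1 + δ) * (P - L) := by
          rw [hP, ← hjs]
          ring
        rw [e1]
        have key : L * (2 * (1 + δ) * (P - L) + L * (2 + δ)) ≤ L * (L * (1 + ε) + l * k ^ 2) := by
          have e2 : L * (L * (1 + ε) + l * k ^ 2) - L * (2 * (1 + δ) * (P - L) + L * (2 + δ)) =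
              (P - (1 + δ) * L) ^ 2 + (ε - (δ + δ ^ 2)) * L ^ 2 := by
            rw [mul_add L (L * (1 + ε)), hPQ]
            ring
          have h3 : 0 ≤ (P - (1 + δ) * L) ^ 2 + (ε - (δ + δ ^ 2)) * L ^ 2 :=
            add_nonneg (sq_nonneg _) (mul_nonneg (by linarith) (sq_nonneg _))
          linarith
        exact le_of_mul_le_mul_left key hL0
    _ = T ^ (1 + ε) * Real.log T ^ (k ^ 2) := by
        rw [Real.rpow_def_of_pos hT0, ← hL, Real.rpow_def_of_pos hL0, ← hl, ← Real.exp_add]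

end Pool.Agent.H83P
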