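import Pool.Agent.H83P.Stm

/-!
# Project ZP, piece P5B (helper75): the lower range
-/

set_option autoImplicit false

namespace Pool.Agent.H83P

open Complex MeasureTheory Set Filter Pool.Agent.H83M

namespace P5B

theorem M_le_add {T k k' : ℝ} (hT : 0 ≤ T) (hk : 0 ≤ k) (hkk : k ≤ k') :
    M k T ≤ T + M k' T := by
  have e : T = ∫ _ in (0:ℝ)..T, (1 : ℝ) := by simp
  have h : M k T ≤ ∫ t in (0:ℝ)..T, ((1 : ℝ) + Z t ^ (2 * k')) := by
    unfold M
    refine intervalIntegral.integral_mono_on hT (REF.Zp_int hk T)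
      (intervalIntegrable_const.add (REF.Zp_int (hk.trans hkk) T)) fun t _ => ?_
    have hz := REF.Z_nonneg t
    rcases le_total (Z t) 1 with h1 | h1
    · have h2 := Real.rpow_le_one hz h1 (by linarith : 0 ≤ 2 * k)
      have h3 := Real.rpow_nonneg hz (2 * k')
      linarith
    · have h2 := Real.rpow_le_rpow_of_exponent_le h1 (by linarith : 2 * k ≤ 2 * k')
      linarith
  rw [intervalIntegral.integral_add intervalIntegrable_const (REF.Zp_int (hk.trans hkk) T),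
    ← e] at h
  exact h

theorem choose_i {N : ℕ} (hN : 1 ≤ N) {y : ℝ} (h1 : y ≤ 1) (h0 : 0 ≤ y) :
    ∃ i : ℕ, 1 ≤ i ∧ i ≤ N ∧ (i : ℝ) - 1 ≤ N * y ∧ N * y ≤ i := by
  have hN0 : (0 : ℝ) ≤ N := Nat.cast_nonneg N
  refine ⟨max 1 ⌈N * y⌉₊, le_max_left _ _, max_le hN (Nat.ceil_le.2 (by nlinarith)), ?_,
    (Nat.le_ceil _).trans (by exact_mod_cast le_max_right _ _)⟩
  have h2 : (0 : ℝ) ≤ N * y := mul_nonneg hN0 h0
  rcases max_cases 1 ⌈N * y⌉₊ with ⟨h, _⟩ | ⟨h, _⟩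
  · rw [h]
    push_cast
    linarith
  · rw [h]
    have := Nat.ceil_lt_add_one h2
    linarith

end P5B

open P5B in
theorem t_P5B : S_P5B := by
  intro hE ε hε
  obtain ⟨N, hN⟩ := exists_nat_gt (8 / ε)
  have h8 : 0 < 8 / ε := by positivity
  have hN0 : (0 : ℝ) < N := h8.trans hN
  have hN1 : 1 ≤ N := by exact_mod_cast hN0
  have hN2 : 2 / (N : ℝ) ≤ ε / 4 := by
    rw [div_le_iff₀ hN0]
    have h9 : 8 < N * ε := by
      rw [div_lt_iff₀ hε] at hN
      exact hN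
    nlinarith
  -- the thresholds
  have hx : ∀ i : ℕ, ∃ Ti : ℝ, 1 ≤ i → i ≤ N → ∀ T : ℝ, Ti ≤ T →
      M (((i : ℝ) / N) * Real.sqrt (LL T)) T ≤ T ^ (1 + ((i : ℝ) / N) ^ 2 + ε / 4) := by
    intro i
    by_cases hi : 1 ≤ i ∧ i ≤ N
    · have hi1 : (1 : ℝ) ≤ i := by exact_mod_cast hi.1
      have hi2 : (i : ℝ) ≤ N := by exact_mod_cast hi.2
      obtain ⟨Ti, hTi⟩ := hE ((i : ℝ) / N) (by positivity) ((div_le_one hN0).2 hi2) (ε / 4)
        (by positivity)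
      exact ⟨Ti, fun _ _ => hTi⟩
    · exact ⟨0, fun a b => absurd ⟨a, b⟩ hi⟩
  choose Ti hTi using hx
  set T₁ := ∑ i ∈ Finset.range (N + 1), |Ti i| with hT₁
  refine ⟨max (max T₁ (Real.exp (Real.exp 1))) (2 ^ (4 / ε) : ℝ), fun T k hT hk0 hk1 => ?_⟩
  have hTa : T₁ ≤ T := (le_max_left _ _).trans ((le_max_left _ _).trans hT)
  have hTb : Real.exp (Real.exp 1) ≤ T := (le_max_right _ _).trans ((le_max_left _ _).trans hT)
  have hTc : (2 ^ (4 / ε) : ℝ) ≤ T := (le_max_right _ _).trans hT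
  obtain ⟨hT0, hL, hLL⟩ := CRI.big hTb
  have hTone : 1 ≤ T := by
    have h1 : (1 : ℝ) ≤ Real.exp (Real.exp 1) := Real.one_le_exp (Real.exp_pos 1).le
    exact h1.trans hTb
  have hL0 : 0 < Real.log T := by linarith
  have hLL0 : 0 < Real.log (Real.log T) := by linarith
  have hLLT : 0 < LL T := by
    unfold LL
    positivity
  set s := Real.sqrt (LL T) with hs
  have hs0 : 0 < s := Real.sqrt_pos.2 hLLT
  have hs2 : s ^ 2 = LL T := Real.sq_sqrt hLLT.le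
  set y := k / s with hy
  have hky : k = y * s := by
    rw [hy]
    field_simp
  have hy0 : 0 ≤ y := by positivity
  have hy1 : y ≤ 1 := (div_le_one hs0).2 hk1
  obtain ⟨i, hi1, hi2, hi3, hi4⟩ := choose_i hN1 hy1 hy0
  have hi1' : (1 : ℝ) ≤ i := by exact_mod_cast hi1
  have hi2' : (i : ℝ) ≤ N := by exact_mod_cast hi2
  have hyi : y ≤ (i : ℝ) / N := by
    rw [le_div_iff₀ hN0]
    linarith
  have hkk : k ≤ ((i : ℝ) / N) * s := by
    rw [hky]
    exact mul_le_mul_of_nonneg_right hyi hs0.le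
  have hTii : Ti i ≤ T := by
    refine (le_abs_self _).trans (le_trans ?_ hTa)
    exact Finset.single_le_sum (f := fun i => |Ti i|) (fun j _ => abs_nonneg _)
      (Finset.mem_range.2 (by omega))
  have hM := hTi i hi1 hi2 T hTii
  have hM2 := M_le_add hT0.le hk0 hkk
  -- the exponents
  have hlog : Real.log T ^ (k ^ 2) = T ^ (y ^ 2) := by
    rw [Real.rpow_def_of_pos hL0, Real.rpow_def_of_pos hT0]
    congr 1
    have h3 : k ^ 2 = y ^ 2 * (Real.log T / Real.log (Real.log T)) := by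
      rw [hky, mul_pow, hs2]
      rfl
    rw [h3]
    field_simp
  have hsq : ((i : ℝ) / N) ^ 2 ≤ y ^ 2 + ε / 4 := by
    have h4 : ((i : ℝ) - 1) / N ≤ y := by
      rw [div_le_iff₀ hN0]
      linarith
    have h5 : 0 ≤ ((i : ℝ) - 1) / N := div_nonneg (by linarith) hN0.le
    have h6 : (((i : ℝ) - 1) / N) ^ 2 ≤ y ^ 2 := pow_le_pow_left₀ h5 h4 2
    have h7 : ((i : ℝ) / N) ^ 2 - (((i : ℝ) - 1) / N) ^ 2 = (2 * i - 1) / N ^ 2 := by
      field_simp
      ring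
    have h9 : (2 * (i : ℝ) - 1) / (N : ℝ) ^ 2 ≤ 2 / N := by
      rw [div_le_div_iff₀ (by positivity) hN0]
      nlinarith
    linarith
  have h2T : 2 ≤ T ^ (ε / 4) := by
    calc (2 : ℝ) = (2 ^ (4 / ε) : ℝ) ^ (ε / 4) := by
          rw [← Real.rpow_mul (by norm_num)]
          have : 4 / ε * (ε / 4) = 1 := by field_simp
          rw [this, Real.rpow_one]
      _ ≤ T ^ (ε / 4) := Real.rpow_le_rpow (by positivity) hTc (by positivity)
  have hTle : T ≤ T ^ (1 + ((i : ℝ) / N) ^ 2 + ε / 4) := by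
    calc T = T ^ (1 : ℝ) := (Real.rpow_one T).symm
      _ ≤ _ := Real.rpow_le_rpow_of_exponent_le hTone (by
        have := sq_nonneg ((i : ℝ) / N)
        linarith)
  rw [hlog]
  calc M k T ≤ T + M (((i : ℝ) / N) * s) T := hM2
    _ ≤ 2 * T ^ (1 + ((i : ℝ) / N) ^ 2 + ε / 4) := by linarith
    _ ≤ T ^ (ε / 4) * T ^ (1 + ((i : ℝ) / N) ^ 2 + ε / 4) :=
        mul_le_mul_of_nonneg_right h2T (Real.rpow_nonneg hT0.le _)
    _ = T ^ (ε / 4 + (1 + ((i : ℝ) / N) ^ 2 + ε / 4)) := (Real.rpow_add hT0 _ _).symm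
    _ ≤ T ^ ((1 + ε) + y ^ 2) := Real.rpow_le_rpow_of_exponent_le hTone (by linarith)
    _ = T ^ (1 + ε) * T ^ (y ^ 2) := Real.rpow_add hT0 _ _

end Pool.Agent.H83P
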