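import Pool.Agent.H83P.Stm

/-!
# ZP, piece P6 (helper77)
-/

set_option autoImplicit false

namespace Pool.Agent.H83P

open Complex MeasureTheory Set Filter Pool.Agent.H83M

theorem t_P6 : S_P6 := by
  intro hW x hx ε hε
  obtain ⟨T₁, hT₁⟩ := hW ε hε
  obtain ⟨T₂, hT₂⟩ := eventually_atTop.1 (CRI.ev1 (4 / x ^ 2))
  refine ⟨max T₁ (max T₂ (Real.exp (Real.exp 1))), fun T hT => ?_⟩
  have h1 : T₁ ≤ T := (le_max_left _ _).trans hT
  have h2 : T₂ ≤ T := (le_max_left _ _).trans ((le_max_right _ _).trans hT)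
  have h3 : Real.exp (Real.exp 1) ≤ T := (le_max_right _ _).trans ((le_max_right _ _).trans hT)
  obtain ⟨hT0, hl, hll⟩ := CRI.big h3
  have hl0 : 0 < Real.log T := by linarith
  have hll0 : 0 < Real.log (Real.log T) := by linarith
  have hLL : 4 / x ^ 2 ≤ LL T := by
    rw [LL, le_div_iff₀ hll0]
    exact hT₂ T h2
  have hLL0 : 0 ≤ LL T := le_trans (by positivity) hLL
  have hk : 2 ≤ x * Real.sqrt (LL T) := by
    have h4 : (2 / x) ^ 2 ≤ LL T := by
      rw [div_pow]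
      norm_num
      exact hLL
    have h5 : 2 / x ≤ Real.sqrt (LL T) := Real.le_sqrt_of_sq_le h4
    rw [div_le_iff₀ hx] at h5
    linarith
  have h6 := hT₁ T (x * Real.sqrt (LL T)) h1 hk
  have h7 : Real.log T ^ ((x * Real.sqrt (LL T)) ^ 2) = T ^ (x ^ 2) := by
    rw [mul_pow, Real.sq_sqrt hLL0, Real.rpow_def_of_pos hl0, Real.rpow_def_of_pos hT0, LL]
    congr 1
    field_simp
  rw [h7, ← Real.rpow_add hT0] at h6
  have h8 : 1 + ε + x ^ 2 = 1 + x ^ 2 + ε := by ring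
  rwa [h8] at h6

end Pool.Agent.H83P
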