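import Pool.Agent.H83P.P5B
import Pool.Agent.H83P.P4

/-!
# ZP, piece P7 (helper83): finitely many orders
-/

set_option autoImplicit false

namespace Pool.Agent.H83P

open Complex MeasureTheory Set Filter Pool.Agent.H83M

/-- P7: `N` orders at the critical scale give the inequality up to `T^{1/(4N²) + ε}` -/
def S_P7 : Prop := ∀ N : ℕ, 1 ≤ N →
  (∀ i : ℕ, 1 ≤ i → i ≤ N → Ex ((i : ℝ) / N) (1 + ((i : ℝ) / N) ^ 2)) →
  ∀ ε : ℝ, 0 < ε → ∃ T₀ : ℝ, ∀ T k : ℝ, T₀ ≤ T → 0 ≤ k → k ≤ Real.sqrt (LL T) →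
    M k T ≤ T ^ (1 + 1 / (4 * (N : ℝ) ^ 2) + ε) * Real.log T ^ (k ^ 2)

open P5B in
theorem t_P7 : S_P7 := by
  intro N hN1 hE ε hε
  have hN0 : (0 : ℝ) < N := by exact_mod_cast hN1
  -- the thresholds
  have hx : ∀ i : ℕ, ∃ Ti : ℝ, 1 ≤ i → i ≤ N → ∀ T : ℝ, Ti ≤ T →
      M (((i : ℝ) / N) * Real.sqrt (LL T)) T ≤ T ^ (1 + ((i : ℝ) / N) ^ 2 + ε) := by
    intro i
    by_cases hi : 1 ≤ i ∧ i ≤ N
    · obtain ⟨Ti, hTi⟩ := hE i hi.1 hi.2 ε hε
      exact ⟨Ti, fun _ _ => hTi⟩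
    · exact ⟨0, fun a b => absurd ⟨a, b⟩ hi⟩
  choose Ti hTi using hx
  set T₁ := ∑ i ∈ Finset.range (N + 1), |Ti i| with hT₁
  refine ⟨max T₁ (Real.exp (Real.exp 1)), fun T k hT hk0 hk1 => ?_⟩
  have hTa : T₁ ≤ T := (le_max_left _ _).trans hT
  have hTb : Real.exp (Real.exp 1) ≤ T := (le_max_right _ _).trans hT
  obtain ⟨hT0, hL, hLL⟩ := CRI.big hTb
  have hTone : 1 ≤ T := by
    have h1 : (1 : ℝ) ≤ Real.exp (Real.exp 1) := Real.one_le_exp (Real.exp_pos 1).le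
    exact h1.trans hTb
  have hL0 : 0 < Real.log T := by linarith
  have hLL0 : 0 < Real.log (Real.log T) := by linarith
  have hLLT : 0 < LL T := by
    unfold LL
    positivity
  -- all orders `i/N`, `0 ≤ i ≤ N`
  have hall : ∀ i : ℕ, i ≤ N →
      M (((i : ℝ) / N) * Real.sqrt (LL T)) T ≤ T ^ (1 + ((i : ℝ) / N) ^ 2 + ε) := by
    intro i hi
    rcases Nat.eq_zero_or_pos i with h0 | h0
    · have e1 : M (((i : ℝ) / N) * Real.sqrt (LL T)) T = T := by
        rw [h0]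
        unfold M
        simp
      rw [e1]
      calc T = T ^ (1 : ℝ) := (Real.rpow_one T).symm
        _ ≤ _ := Real.rpow_le_rpow_of_exponent_le hTone (by
          have := sq_nonneg ((i : ℝ) / N)
          linarith)
    · refine hTi i h0 hi T ((le_abs_self _).trans (le_trans ?_ hTa))
      exact Finset.single_le_sum (f := fun i => |Ti i|) (fun j _ => abs_nonneg _)
        (Finset.mem_range.2 (by omega))
  set s := Real.sqrt (LL T) with hs
  have hs0 : 0 < s := Real.sqrt_pos.2 hLLT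
  have hs2 : s ^ 2 = LL T := Real.sq_sqrt hLLT.le
  set y := k / s with hy
  have hky : k = y * s := by
    rw [hy]
    field_simp
  have hy0 : 0 ≤ y := by positivity
  have hy1 : y ≤ 1 := (div_le_one hs0).2 hk1
  obtain ⟨i, hi1, hi2, hi3, hi4⟩ := choose_i hN1 hy1 hy0
  obtain ⟨m, rfl⟩ : ∃ m : ℕ, i = m + 1 := ⟨i - 1, by omega⟩
  have hlog : Real.log T ^ (k ^ 2) = T ^ (y ^ 2) := by
    rw [Real.rpow_def_of_pos hL0, Real.rpow_def_of_pos hT0]
    congr 1
    have h3 : k ^ 2 = y ^ 2 * (Real.log T / Real.log (Real.log T)) := by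
      rw [hky, mul_pow, hs2]
      rfl
    rw [h3]
    field_simp
  have hA := hall m (by omega)
  have hB := hall (m + 1) hi2
  rw [hlog, ← Real.rpow_add hT0]
  push_cast at hi3 hi4 hB ⊢
  obtain ⟨θ, hθ⟩ : ∃ θ : ℝ, θ = (m + 1 : ℝ) - N * y := ⟨_, rfl⟩
  have h0 : 0 ≤ θ := by rw [hθ]; linarith
  have h1 : θ ≤ 1 := by rw [hθ]; linarith
  have hNy : (N : ℝ) * y = m + 1 - θ := by rw [hθ]; ring
  have hyθ : y = (m + 1 - θ) / N := by
    rw [← hNy]
    field_simp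
  have hq : θ * (1 - θ) ≤ 1 / 4 := by nlinarith [sq_nonneg (θ - 1 / 2)]
  -- the exponent
  have hexp : θ * (1 + ((m : ℝ) / N) ^ 2 + ε) + (1 - θ) * (1 + (((m : ℝ) + 1) / N) ^ 2 + ε) ≤
      1 + 1 / (4 * (N : ℝ) ^ 2) + ε + y ^ 2 := by
    have e1 : θ * (1 + ((m : ℝ) / N) ^ 2 + ε) + (1 - θ) * (1 + (((m : ℝ) + 1) / N) ^ 2 + ε) =
        1 + ε + y ^ 2 + θ * (1 - θ) / (N : ℝ) ^ 2 := by
      rw [hyθ]
      field_simp
      ring
    have e2 : θ * (1 - θ) / (N : ℝ) ^ 2 ≤ 1 / (4 * (N : ℝ) ^ 2) := by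
      rw [div_le_div_iff₀ (by positivity) (by positivity)]
      have : 0 < (N : ℝ) ^ 2 := by positivity
      nlinarith
    linarith
  have hk : k = θ * ((m : ℝ) / N * s) + (1 - θ) * (((m : ℝ) + 1) / N * s) := by
    rw [hky, hyθ]
    field_simp
    ring
  have hpos : ∀ a : ℝ, 0 < T ^ a := fun a => Real.rpow_pos_of_pos hT0 a
  have hmain : M k T ≤ T ^ (θ * (1 + ((m : ℝ) / N) ^ 2 + ε) +
      (1 - θ) * (1 + (((m : ℝ) + 1) / N) ^ 2 + ε)) := by
    rcases h0.eq_or_lt with h2 | h2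
    · rw [← h2] at hk ⊢
      simp only [zero_mul, zero_add, sub_zero, one_mul] at hk ⊢
      rw [hk]
      exact hB
    · rcases h1.eq_or_lt with h3 | h3
      · rw [h3] at hk ⊢
        simp only [sub_self, zero_mul, add_zero, one_mul] at hk ⊢
        rw [hk]
        exact hA
      · have h4 := P4.conv (a := (m : ℝ) / N * s) (b := ((m : ℝ) + 1) / N * s) hT0.le
          (by positivity) (by positivity) (hpos _) (hpos _) h2 h3 hA hB
        rw [← hk] at h4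
        refine h4.trans (le_of_eq ?_)
        rw [← Real.rpow_mul hT0.le, ← Real.rpow_mul hT0.le, ← Real.rpow_add hT0]
        congr 1
        ring
  exact hmain.trans (Real.rpow_le_rpow_of_exponent_le hTone hexp)

end Pool.Agent.H83P
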