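import Pool.Agent.H83M.Stm3
import Pool.Agent.H83M.CRI
import Pool.Agent.H83M.REF

/-!
# PROJECT ZP (helper83), hard MP_3d0d30_nt (moments of zeta, Q2): the profile of the moments at the critical scale.
Statements only (NOT results). `ℓ = log log T`, `LL T = log T/ℓ`, `s(T) = √(log T · ℓ)`; note `√(LL T) · s(T) = log T`,
`s(T) = ℓ √(LL T)`, `(log T)^{(x√(LL T))²} = T^{x²}`. `Ex x λ`: the moment of the order `x √(LL T)` is `≤ T^{λ+o(1)}`.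

File `Pool/Agent/H83P/XXX.lean`, theorem `t_XXX` in the namespace `Pool.Agent.H83P` (used pieces as hypotheses). Lemmas
ready to use: `H83M.CRI.big`, `H83M.CRI.ev1`, `H83M.CRI.Z_cont`, `H83M.CRI.Z_nonneg`, `H83M.REF.M_le` (`Z ≤ B` on `[0,T]` gives
`M k T ≤ B^{2(k-j)} M j T`), `H83M.REF.M_le'` (`M k T ≤ B^{2k} T`), `H83M.REF.Zp_int`.
-/

set_option autoImplicit false

namespace Pool.Agent.H83P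

open Complex MeasureTheory Set Filter Pool.Agent.H83M

noncomputable section

/-- `s(T) = √(log T log log T)` -/
def sc (T : ℝ) : ℝ := Real.sqrt (Real.log T * Real.log (Real.log T))

/-- `M_{x√(LL T)}(T) ≤ T^{λ+o(1)}` -/
def Ex (x lam : ℝ) : Prop := ∀ ε : ℝ, 0 < ε → ∃ T₀ : ℝ, ∀ T : ℝ, T₀ ≤ T →
  M (x * Real.sqrt (LL T)) T ≤ T ^ (lam + ε)

/-- `Z(t) ≤ exp((m + o(1)) s(t))` -/
def Bd (m : ℝ) : Prop := ∀ ε : ℝ, 0 < ε → ∃ t₀ : ℝ, ∀ t : ℝ, t₀ ≤ t → Z t ≤ Real.exp ((m + ε) * sc t)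

/-- the inequality of Q2 up to `T^ε` -/
def Weak : Prop := ∀ ε : ℝ, 0 < ε → ∃ T₀ : ℝ, ∀ T k : ℝ, T₀ ≤ T → 2 ≤ k →
  M k T ≤ T ^ (1 + ε) * Real.log T ^ (k ^ 2)

/-- UB (50 lines, `theorem t_UB : S_UB`). `t ≥ t₀` (and `≥ e^e`): `Z t ≤ exp((m+ε) s(t)) ≤ exp((m+ε) s(T))`; `t ≤ t₀`:
`Z` is continuous, bounded by `K` there, and `K ≤ exp(ε s(T))` for large `T`. See the proof of `t_CRI` (file H83M/CRI.lean,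
`key`). -/
def S_UB : Prop := ∀ m : ℝ, 0 ≤ m → Bd m → ∀ ε : ℝ, 0 < ε → ∃ T₀ : ℝ, ∀ T t : ℝ, T₀ ≤ T → 0 ≤ t → t ≤ T →
  Z t ≤ Real.exp ((m + ε) * sc T)

/-- P1 (100 lines, `theorem t_P1 (h : S_PW) : S_P1`). `δ > 0` small, `t = T` large, `k' = x √(LL (2T)) ≥ x √(LL T)`
(`LL` increasing for large `T`), `1 ≤ 2k'`. PW with `p = 2k'`: `Z^{2k'} ≤ C^{2k'} log T (1 + M k' (2T)) ≤
C^{2k'} log T · 2 (2T)^{λ+δ}`. Logarithms, division by `2k'`: `log Z ≤ log C + (ℓ + log 2 + (λ+δ) log 2)/(2k') +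
(λ+δ) log T/(2k')`, `log T/(2k') ≤ log T/(2x√(LL T)) = s(T)/(2x)`, the first terms are `≤ (ε/2) s(T)` for large `T`; `δ = xε`. -/
def S_P1 : Prop := ∀ x lam : ℝ, 0 < x → 0 ≤ lam → Ex x lam → Bd (lam / (2 * x))

/-- P2 (50 lines, `theorem t_P2 (h : S_UB) : S_P2`). `Z ≤ exp((m+δ) s(T))` on `[0, T]`, `REF.M_le'`, `k = x√(LL T)`:
`M k T ≤ exp((m+δ) s(T) · 2k) T = T^{1 + 2x(m+δ)}` since `√(LL T) s(T) = log T`; `δ = ε/(2x)`. -/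
def S_P2 : Prop := ∀ x m : ℝ, 0 < x → 0 ≤ m → Bd m → Ex x (1 + 2 * m * x)

/-- P3 (70 lines, `theorem t_P3 (h1 : S_P1) (h2 : S_UB) : S_P3`). `Z ≤ exp((λ/(2x) + δ) s(T))` on `[0, T]` by P1, UB;
`REF.M_le` with `j = x√(LL T)`, `k = y√(LL T)`: `M k T ≤ exp((λ/(2x)+δ) s(T) · 2(y-x)√(LL T)) T^{λ+δ} =
T^{(y-x)(λ/x+2δ) + λ + δ} = T^{λy/x + δ(2(y-x)+1)}`. -/
def S_P3 : Prop := ∀ x y lam : ℝ, 0 < x → x ≤ y → 0 ≤ lam → Ex x lam → Ex y (lam * y / x)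

/-- P4 (80 lines, `theorem t_P4 : S_P4`), convexity by Hölder: `M (θa + (1-θ)b) T ≤ (M a T)^θ (M b T)^{1-θ}` (Young:
`u^θ v^{1-θ} ≤ θu + (1-θ)v`, `Real.geom_mean_le_arith_mean2_weighted`, `u = Z^{2a}/M_a`, `v = Z^{2b}/M_b`; if `M_a ≤ 0` or so the
exponents `θ`, `1-θ` and `Z = 0` almost everywhere, or use `M_a + η` instead of `M_a`, or
`MeasureTheory.integral_mul_le_Lp_mul_Lq_of_nonneg`), then `(T^{λ+ε})^θ (T^{μ+ε})^{1-θ}`. -/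
def S_P4 : Prop := ∀ x y lam mu θ : ℝ, 0 < x → 0 < y → 0 < θ → θ < 1 → Ex x lam → Ex y mu →
  Ex (θ * x + (1 - θ) * y) (θ * lam + (1 - θ) * mu)

/-- P5A (100 lines, `theorem t_P5A (h : S_UB) : S_P5A`), the upper range. `j = √(LL T)`, `k = yj`, `y ≥ 1`; `δ` with
`2δ + δ² ≤ ε`. `M k T ≤ exp((1+δ) s(T) 2(k-j)) M j T ≤ T^{2(1+δ)(y-1) + 2 + δ}` (`M j T = M (1·j) T`, `Ex 1 2`), and
`T^{1+ε} (log T)^{k²} = T^{1+ε+y²}`; `1 + ε + y² - 2(1+δ)(y-1) - 2 - δ = (y-1-δ)² + ε - δ - δ² ≥ 0`. -/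
def S_P5A : Prop := Bd 1 → Ex 1 2 → ∀ ε : ℝ, 0 < ε → ∃ T₀ : ℝ, ∀ T k : ℝ, T₀ ≤ T →
  Real.sqrt (LL T) ≤ k → M k T ≤ T ^ (1 + ε) * Real.log T ^ (k ^ 2)

/-- P5B (120 lines, `theorem t_P5B : S_P5B`), the lower range. `N ≥ 1` an integer with `2/N ≤ ε/4`, `δ = ε/4`, `T` large for
all `x = i/N`, `1 ≤ i ≤ N`. `k ≤ √(LL T)`, choose `i` with `(i-1)/N √(LL T) ≤ k ≤ (i/N) √(LL T)` (`i = ⌈N k/√(LL T)⌉`):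
`M k T ≤ T + M (i/N √(LL T)) T` (`Z^{2k} ≤ 1 + Z^{2k'}` for `k ≤ k'`) `≤ T + T^{1+(i/N)²+δ} ≤ 2 T^{1+((i-1)/N)²+2/N+δ} ≤
T^{1+ε} T^{((i-1)/N)²} ≤ T^{1+ε} (log T)^{k²}`, as `(i/N)² - ((i-1)/N)² ≤ 2/N`, `2 ≤ T^{ε/4}`. -/
def S_P5B : Prop := (∀ x : ℝ, 0 < x → x ≤ 1 → Ex x (1 + x ^ 2)) → ∀ ε : ℝ, 0 < ε → ∃ T₀ : ℝ, ∀ T k : ℝ,
  T₀ ≤ T → 0 ≤ k → k ≤ Real.sqrt (LL T) → M k T ≤ T ^ (1 + ε) * Real.log T ^ (k ^ 2)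

/-- P6 (40 lines, `theorem t_P6 : S_P6`). `k = x√(LL T) ≥ 2` for large `T`, `(log T)^{k²} = T^{x²}`. -/
def S_P6 : Prop := Weak → ∀ x : ℝ, 0 < x → Ex x (1 + x ^ 2)

end

end Pool.Agent.H83P
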