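import Pool.Agent.H83P.Stm

/-!
# Project ZP, piece UB (helper55)
-/

set_option autoImplicit false

namespace Pool.Agent.H83P

open Complex MeasureTheory Set Filter Pool.Agent.H83M

theorem UB.sc_mono {t T : ℝ} (h : Real.exp (Real.exp 1) ≤ t) (hT : t ≤ T) : sc t ≤ sc T := by
  obtain ⟨h0, h1, h2⟩ := CRI.big h
  unfold sc
  have h3 : Real.log t ≤ Real.log T := Real.log_le_log h0 hT
  have h4 : Real.log (Real.log t) ≤ Real.log (Real.log T) := Real.log_le_log (by linarith) h3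
  exact Real.sqrt_le_sqrt (mul_le_mul h3 h4 (by linarith) (by linarith))

theorem UB.sqrt_log_le {T : ℝ} (h : Real.exp (Real.exp 1) ≤ T) :
    Real.sqrt (Real.log T) ≤ sc T := by
  obtain ⟨h0, h1, h2⟩ := CRI.big h
  unfold sc
  exact Real.sqrt_le_sqrt (by nlinarith)

theorem t_UB : S_UB := by
  intro m hm hBd ε hε
  obtain ⟨t₀, ht₀⟩ := hBd ε hε
  obtain ⟨t₁, ht₁⟩ : ∃ t₁, t₁ = max t₀ (Real.exp (Real.exp 1)) := ⟨_, rfl⟩
  obtain ⟨K, hK⟩ := (isCompact_Icc (a := (0 : ℝ)) (b := t₁)).exists_bound_of_continuousOn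
    CRI.Z_cont.continuousOn
  have hten : Tendsto (fun T : ℝ => Real.exp (ε * Real.sqrt (Real.log T))) atTop atTop :=
    Real.tendsto_exp_atTop.comp ((Real.tendsto_sqrt_atTop.comp
      Real.tendsto_log_atTop).const_mul_atTop hε)
  have ev : ∀ᶠ T : ℝ in atTop, ∀ t : ℝ, 0 ≤ t → t ≤ T → Z t ≤ Real.exp ((m + ε) * sc T) := by
    filter_upwards [eventually_ge_atTop (Real.exp (Real.exp 1)), hten.eventually_ge_atTop K]
      with T h1 h2 t ht htT
    by_cases hc : t ≤ t₁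
    · have h3 := hK t ⟨ht, hc⟩
      rw [Real.norm_of_nonneg (CRI.Z_nonneg t)] at h3
      refine h3.trans (h2.trans (Real.exp_le_exp.2 ?_))
      have h4 := UB.sqrt_log_le h1
      have h5 : 0 ≤ sc T := Real.sqrt_nonneg _
      nlinarith
    · have hc' : t₁ ≤ t := (not_le.1 hc).le
      have h3 := ht₀ t ((le_max_left _ _).trans (ht₁ ▸ hc'))
      refine h3.trans (Real.exp_le_exp.2 ?_)
      have h4 : Real.exp (Real.exp 1) ≤ t := (le_max_right _ _).trans (ht₁ ▸ hc')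
      exact mul_le_mul_of_nonneg_left (UB.sc_mono h4 htT) (by linarith)
  obtain ⟨T₀, hT₀⟩ := eventually_atTop.1 ev
  exact ⟨T₀, fun T t hT ht htT => hT₀ T hT t ht htT⟩

end Pool.Agent.H83P
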